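import Mathlib

/-!
Suprema of incomparable chains: construction of a set of reals, invariant under rational
translations, none of whose length-one open windows embeds in a shorter window.
-/

set_option autoImplicit false

namespace Pool.Agent.Lib.MP_f0be4b_lc

open Cardinal Set MeasureTheory Pointwise

/-- Transfinite selection of pairwise disjoint pairs. -/
theorem exists_sel {ι V : Type} (hι : #ι ≤ 𝔠) (P : ι → V × V → Prop) (v0 : V)
    (hP : ∀ i, ∀ Z : Set V, #Z < 𝔠 → ∃ p, P i p ∧ p.1 ≠ p.2 ∧ p.1 ∉ Z ∧ p.2 ∉ Z) :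
    ∃ E : Set V, v0 ∈ E ∧ ∀ i, ∃ p, P i p ∧ p.1 ∈ E ∧ p.2 ∉ E := by
  classical
  obtain ⟨_, _, hord⟩ := Cardinal.exists_ord_eq_type_lt ι
  let Zs : (i : ι) → (Iio i → V × V) → Set V := fun i G =>
    insert v0 (range (fun j => (G j).1) ∪ range (fun j => (G j).2))
  have hZ : ∀ i G, #(Zs i G) < 𝔠 := by
    intro i G
    have h1 : #(Iio i) < 𝔠 := (Cardinal.mk_Iio_lt i hord).trans_le hι
    have h2 : #(range (fun j => (G j).1)) < 𝔠 := mk_range_le.trans_lt h1
    have h3 : #(range (fun j => (G j).2)) < 𝔠 := mk_range_le.trans_lt h1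
    have h4 : #((range (fun j => (G j).1) ∪ range (fun j => (G j).2) : Set V)) < 𝔠 :=
      (mk_union_le _ _).trans_lt (add_lt_of_lt aleph0_le_continuum h2 h3)
    exact mk_insert_le.trans_lt
      (add_lt_of_lt aleph0_le_continuum h4 (one_lt_aleph0.trans aleph0_lt_continuum))
  choose c hc using fun i G => hP i (Zs i G) (hZ i G)
  let F : ι → V × V := (wellFounded_lt (α := ι)).fix (fun i G => c i (fun j => G j.1 j.2))
  have hF : ∀ i, F i = c i (fun j => F j.1) := fun i => by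
    simp only [F]
    rw [WellFounded.fix_eq]
  have key : ∀ i, P i (F i) ∧ (F i).1 ≠ (F i).2 ∧ (F i).1 ∉ Zs i (fun j => F j.1) ∧
      (F i).2 ∉ Zs i (fun j => F j.1) := fun i => by
    have := hc i (fun j => F j.1)
    rwa [← hF i] at this
  refine ⟨insert v0 (range fun i => (F i).1), mem_insert _ _, fun i => ⟨F i, (key i).1,
    mem_insert_of_mem _ (mem_range_self i), ?_⟩⟩
  rintro (h | ⟨j, hj⟩)
  · exact (key i).2.2.2 (Or.inl h)
  · rcases lt_trichotomy j i with hji | rfl | hij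
    · exact (key i).2.2.2 (Or.inr (Or.inl ⟨⟨j, hji⟩, hj⟩))
    · exact (key j).2.1 hj
    · exact (key j).2.2.1 (Or.inr (Or.inr ⟨⟨i, hij⟩, hj.symm⟩))

/-- A measurable set of reals of positive measure has cardinality at least continuum. -/
theorem continuum_le_of_pos {T : Set ℝ} (hT : MeasurableSet T) (hpos : 0 < volume T) :
    𝔠 ≤ #T := by
  have h := Measure.sub_mem_nhds_zero_of_addHaar_pos volume T hT hpos
  obtain ⟨a, b, hab, hsub⟩ := mem_nhds_iff_exists_Ioo_subset.1 h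
  have hlt : a < b := hab.1.trans hab.2
  have h1 : 𝔠 ≤ #(T - T : Set ℝ) := by
    rw [← mk_Ioo_real hlt]; exact mk_le_mk_of_subset hsub
  have h2 : #(T - T : Set ℝ) ≤ #T * #T := by
    rw [← Set.image2_sub]
    exact mk_image2_le
  by_contra hlt'
  push Not at hlt'
  exact absurd (h1.trans h2) (not_le.2 (mul_lt_of_lt aleph0_le_continuum hlt' hlt'))

/-- A strictly increasing map that squeezes the unit interval into a shorter interval is not a
piecewise rational translation almost everywhere. -/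
theorem pos_of_squeeze {g : ℝ → ℝ} (hg : StrictMono g) {u L : ℝ} (hL : L < 1)
    (hmap : ∀ x ∈ Ioo (0 : ℝ) 1, g x ∈ Icc u (u + L)) :
    0 < volume (Ioo (0 : ℝ) 1 \ ⋃ r : ℚ, {x | g x = x + r}) := by
  have hgm : Measurable g := hg.monotone.measurable
  let S : ℚ → Set ℝ := fun r => Ioo (0 : ℝ) 1 ∩ {x | g x = x + r}
  have hSm : ∀ r, MeasurableSet (S r) := fun r =>
    measurableSet_Ioo.inter (measurableSet_eq_fun hgm (measurable_id.add_const _))
  let S' : ℚ → Set ℝ := fun r => (fun y => y + (-(r : ℝ))) ⁻¹' S r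
  have hS'm : ∀ r, MeasurableSet (S' r) := fun r => (measurable_id.add_const _) (hSm r)
  have hvol : ∀ r, volume (S' r) = volume (S r) := fun r => measure_preimage_add_right _ _ _
  have hd' : Pairwise (Function.onFun Disjoint S') := by
    intro r s hrs
    refine Set.disjoint_left.2 fun y hy1 hy2 => hrs ?_
    have e1 : g (y + -(r : ℝ)) = y + -(r : ℝ) + r := hy1.2
    have e2 : g (y + -(s : ℝ)) = y + -(s : ℝ) + s := hy2.2
    have : g (y + -(r : ℝ)) = g (y + -(s : ℝ)) := by rw [e1, e2]; ring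
    have := hg.injective this
    have : (r : ℝ) = s := by linarith
    exact_mod_cast this
  have hsub : (⋃ r, S' r) ⊆ Icc u (u + L) := by
    intro y hy
    obtain ⟨r, hr⟩ := mem_iUnion.1 hy
    have e1 : g (y + -(r : ℝ)) = y + -(r : ℝ) + r := hr.2
    have := hmap _ hr.1
    rw [e1] at this
    simpa using this
  have h1 : volume (⋃ r, S r) ≤ ENNReal.ofReal L := by
    calc volume (⋃ r, S r) ≤ ∑' r, volume (S r) := measure_iUnion_le _
      _ = ∑' r, volume (S' r) := by simp only [hvol]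
      _ = volume (⋃ r, S' r) := (measure_iUnion hd' hS'm).symm
      _ ≤ volume (Icc u (u + L)) := measure_mono hsub
      _ = ENNReal.ofReal L := by simp
  rw [pos_iff_ne_zero]
  intro h0
  have h2 : volume (Ioo (0 : ℝ) 1) ≤
      volume (⋃ r, S r) + volume (Ioo (0 : ℝ) 1 \ ⋃ r : ℚ, {x | g x = x + r}) := by
    refine (measure_mono ?_).trans (measure_union_le _ _)
    intro x hx
    by_cases hx' : x ∈ ⋃ r : ℚ, {x | g x = x + r}
    · obtain ⟨r, hr⟩ := mem_iUnion.1 hx'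
      exact Or.inl (mem_iUnion.2 ⟨r, hx, hr⟩)
    · exact Or.inr ⟨hx, hx'⟩
  rw [h0, add_zero] at h2
  have h3 := h2.trans h1
  simp only [Real.volume_Ioo, sub_zero] at h3
  rw [ENNReal.ofReal_le_ofReal_iff'] at h3
  rcases h3 with h3 | h3 <;> linarith

/-- The left-continuous extension to the reals of a function on the rationals. -/
noncomputable def ext (h : ℚ → ℝ) (x : ℝ) : ℝ := sSup (h '' {q : ℚ | (q : ℝ) < x})

theorem ext_bdd {h : ℚ → ℝ} (hh : StrictMono h) (x : ℝ) :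
    BddAbove (h '' {q : ℚ | (q : ℝ) < x}) := by
  obtain ⟨q, hq⟩ := exists_rat_gt x
  refine ⟨h q, ?_⟩
  rintro _ ⟨p, hp, rfl⟩
  exact hh.monotone (by exact_mod_cast (lt_trans hp hq).le)

theorem ext_ne (h : ℚ → ℝ) (x : ℝ) : (h '' {q : ℚ | (q : ℝ) < x}).Nonempty := by
  obtain ⟨q, hq⟩ := exists_rat_lt x
  exact ⟨h q, q, hq, rfl⟩

theorem le_ext {h : ℚ → ℝ} (hh : StrictMono h) {x : ℝ} {q : ℚ} (hq : (q : ℝ) < x) :
    h q ≤ ext h x := le_csSup (ext_bdd hh x) ⟨q, hq, rfl⟩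

theorem ext_le {h : ℚ → ℝ} {x y : ℝ} (hy : ∀ q : ℚ, (q : ℝ) < x → h q ≤ y) :
    ext h x ≤ y := csSup_le (ext_ne h x) (by rintro _ ⟨q, hq, rfl⟩; exact hy q hq)

theorem ext_strictMono {h : ℚ → ℝ} (hh : StrictMono h) : StrictMono (ext h) := by
  intro x y hxy
  obtain ⟨q1, h1, h1'⟩ := exists_rat_btwn hxy
  obtain ⟨q2, h2, h2'⟩ := exists_rat_btwn h1'
  calc ext h x ≤ h q1 := ext_le fun q hq => hh.monotone (by exact_mod_cast (hq.trans h1).le)
    _ < h q2 := hh (by exact_mod_cast h2)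
    _ ≤ ext h y := le_ext hh h2'

theorem eq_ext {h : ℚ → ℝ} (hh : StrictMono h) {x y : ℝ} (hc : ContinuousAt (ext h) x)
    (h1 : ∀ q : ℚ, (q : ℝ) < x → h q ≤ y) (h2 : ∀ q : ℚ, x < q → y ≤ h q) : y = ext h x := by
  refine le_antisymm ?_ (ext_le h1)
  have ht : Filter.Tendsto (ext h) (nhdsWithin x (Ioi x)) (nhds (ext h x)) :=
    hc.tendsto.mono_left nhdsWithin_le_nhds
  refine ge_of_tendsto ht ?_
  filter_upwards [self_mem_nhdsWithin] with z hz
  obtain ⟨q, hq, hq'⟩ := exists_rat_btwn (show x < z from hz)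
  exact (h2 q hq).trans (le_ext hh hq')

/-- The rationals as an additive subgroup of the reals. -/
noncomputable def H : AddSubgroup ℝ := (Rat.castHom ℝ : ℚ →+ ℝ).range

theorem mk_eq_iff {x y : ℝ} :
    (QuotientAddGroup.mk x : ℝ ⧸ H) = QuotientAddGroup.mk y ↔ ∃ r : ℚ, y = x + r := by
  rw [QuotientAddGroup.eq]
  constructor
  · rintro ⟨r, hr⟩
    refine ⟨r, ?_⟩
    have : (r : ℝ) = -x + y := hr
    linarith
  · rintro ⟨r, hr⟩
    exact ⟨r, by simp [hr]⟩

theorem card_preimage_lt {Z : Set (ℝ ⧸ H)} (hZ : #Z < 𝔠) :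
    #((fun x : ℝ => (QuotientAddGroup.mk x : ℝ ⧸ H)) ⁻¹' Z) < 𝔠 := by
  have hsub : (fun x : ℝ => (QuotientAddGroup.mk x : ℝ ⧸ H)) ⁻¹' Z ⊆
      range (fun p : Z × ℚ => (p.1.1.out : ℝ) + p.2) := by
    intro x hx
    have : (QuotientAddGroup.mk ((QuotientAddGroup.mk x : ℝ ⧸ H).out) : ℝ ⧸ H) =
        QuotientAddGroup.mk x := QuotientAddGroup.out_eq' _
    obtain ⟨r, hr⟩ := mk_eq_iff.1 this
    exact ⟨(⟨_, hx⟩, r), hr.symm⟩
  refine (mk_le_mk_of_subset hsub).trans_lt (mk_range_le.trans_lt ?_)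
  rw [mk_prod, lift_id, lift_id]
  exact mul_lt_of_lt aleph0_le_continuum hZ (by simpa using aleph0_lt_continuum)

/-- The rigid set. -/
theorem exists_rigid : ∃ E : Set ℝ, (0 : ℝ) ∈ E ∧ (∀ x ∈ E, ∀ r : ℚ, x + r ∈ E) ∧
    ∀ (f : ℝ → ℝ) (u L : ℝ), L < 1 → StrictMonoOn f (E ∩ Ioo 0 1) →
      (∀ x ∈ E ∩ Ioo 0 1, f x ∈ E ∩ Icc u (u + L)) → False := by
  classical
  let ι := {h : ℚ → ℝ // StrictMono h ∧ ∃ u L : ℝ, L < 1 ∧
    ∀ q : ℚ, 0 < q → q < 1 → h q ∈ Icc u (u + L)}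
  have hι : #ι ≤ 𝔠 := by
    refine (mk_subtype_le _).trans ?_
    simp [mk_real]
  let π : ℝ → ℝ ⧸ H := fun x => QuotientAddGroup.mk x
  let P : ι → (ℝ ⧸ H) × (ℝ ⧸ H) → Prop := fun h p =>
    ∃ x ∈ Ioo (0 : ℝ) 1, ContinuousAt (ext h.1) x ∧ π x = p.1 ∧ π (ext h.1 x) = p.2
  have hP : ∀ i, ∀ Z : Set (ℝ ⧸ H), #Z < 𝔠 →
      ∃ p, P i p ∧ p.1 ≠ p.2 ∧ p.1 ∉ Z ∧ p.2 ∉ Z := by
    rintro ⟨h, hh, u, L, hL, hmap⟩ Z hZ
    have hg := ext_strictMono hh
    have hmap' : ∀ x ∈ Ioo (0 : ℝ) 1, ext h x ∈ Icc u (u + L) := by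
      intro x hx
      obtain ⟨q0, h0, h0'⟩ := exists_rat_btwn hx.1
      obtain ⟨q1, h1, h1'⟩ := exists_rat_btwn hx.2
      have a0 := hmap q0 (by exact_mod_cast h0) (by exact_mod_cast h0'.trans hx.2)
      have a1 := hmap q1 (by exact_mod_cast hx.1.trans h1) (by exact_mod_cast h1')
      exact ⟨a0.1.trans (le_ext hh h0'), ext_le fun q hq =>
        (hh.monotone (by exact_mod_cast (hq.trans h1).le)).trans a1.2⟩
    have hpos := pos_of_squeeze hg hL hmap'
    have hmeas : MeasurableSet (Ioo (0 : ℝ) 1 \ ⋃ r : ℚ, {x | ext h x = x + r}) :=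
      measurableSet_Ioo.diff (MeasurableSet.iUnion fun r =>
        measurableSet_eq_fun hg.monotone.measurable (measurable_id.add_const _))
    have hcard := continuum_le_of_pos hmeas hpos
    have hb1 : #{x | ¬ ContinuousAt (ext h) x} < 𝔠 :=
      (le_aleph0_iff_set_countable.2 hg.monotone.countable_not_continuousAt).trans_lt
        aleph0_lt_continuum
    have hb2 : #(π ⁻¹' Z) < 𝔠 := card_preimage_lt hZ
    have hb3 : #(ext h ⁻¹' (π ⁻¹' Z)) < 𝔠 :=
      (mk_preimage_of_injective _ _ hg.injective).trans_lt hb2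
    have hb : #(({x | ¬ ContinuousAt (ext h) x} ∪ (π ⁻¹' Z ∪ ext h ⁻¹' (π ⁻¹' Z)) : Set ℝ))
        < 𝔠 :=
      (mk_union_le _ _).trans_lt (add_lt_of_lt aleph0_le_continuum hb1
        ((mk_union_le _ _).trans_lt (add_lt_of_lt aleph0_le_continuum hb2 hb3)))
    have hns : ¬ (Ioo (0 : ℝ) 1 \ ⋃ r : ℚ, {x | ext h x = x + r}) ⊆
        ({x | ¬ ContinuousAt (ext h) x} ∪ (π ⁻¹' Z ∪ ext h ⁻¹' (π ⁻¹' Z))) := fun hs =>
      absurd (hcard.trans (mk_le_mk_of_subset hs)) (not_le.2 hb)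
    obtain ⟨x, hx, hxn⟩ := not_subset.1 hns
    simp only [mem_union, mem_ofPred_eq, not_or, not_not, mem_preimage] at hxn
    refine ⟨(π x, π (ext h x)), ⟨x, hx.1, hxn.1, rfl, rfl⟩, ?_, hxn.2.1, hxn.2.2⟩
    intro he
    obtain ⟨r, hr⟩ := mk_eq_iff.1 he
    exact hx.2 (mem_iUnion.2 ⟨r, hr⟩)
  obtain ⟨E', h0, hE'⟩ := exists_sel hι P (π 0) hP
  have hinv : ∀ x ∈ π ⁻¹' E', ∀ r : ℚ, x + r ∈ π ⁻¹' E' := by
    intro x hx r
    have : π x = π (x + r) := mk_eq_iff.2 ⟨r, rfl⟩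
    show π (x + r) ∈ E'
    rw [← this]; exact hx
  refine ⟨π ⁻¹' E', h0, hinv, ?_⟩
  intro f u L hL hf hmap
  have hq : ∀ q : ℚ, 0 < q → q < 1 → (q : ℝ) ∈ π ⁻¹' E' ∩ Ioo 0 1 := by
    intro q h0' h1'
    refine ⟨?_, by exact_mod_cast h0', by exact_mod_cast h1'⟩
    simpa using hinv 0 h0 q
  let h : ℚ → ℝ := fun q => if q ≤ 0 then u + q - 1 else if 1 ≤ q then u + L + q else f q
  have hL0 : 0 ≤ L := by
    have := (hmap _ (hq (1 / 2) (by norm_num) (by norm_num))).2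
    linarith [this.1, this.2]
  have hlow : ∀ q : ℚ, q ≤ 0 → h q = u + q - 1 := fun q hq0 => by simp [h, hq0]
  have hhigh : ∀ q : ℚ, 1 ≤ q → h q = u + L + q := fun q hq1 => by
    have : ¬ q ≤ 0 := by linarith
    simp [h, hq1, this]
  have hmid : ∀ q : ℚ, 0 < q → q < 1 → h q = f q := fun q hq0 hq1 => by
    simp [h, not_le.2 hq0, not_le.2 hq1]
  have hh : StrictMono h := by
    intro p q hpq
    have hpq' : (p : ℝ) < q := by exact_mod_cast hpq
    rcases le_or_gt p 0 with hp0 | hp0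
    · have hp0' : (p : ℝ) ≤ 0 := by exact_mod_cast hp0
      rw [hlow p hp0]
      rcases le_or_gt q 0 with hq0 | hq0
      · rw [hlow q hq0]; linarith
      · rcases le_or_gt 1 q with hq1 | hq1
        · rw [hhigh q hq1]; linarith
        · rw [hmid q hq0 hq1]
          linarith [(hmap _ (hq q hq0 hq1)).2.1]
    · have hq0 : 0 < q := hp0.trans hpq
      rcases le_or_gt 1 p with hp1 | hp1
      · rw [hhigh p hp1, hhigh q (hp1.trans hpq.le)]; linarith
      · rw [hmid p hp0 hp1]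
        rcases le_or_gt 1 q with hq1 | hq1
        · have hq1' : (1 : ℝ) ≤ q := by exact_mod_cast hq1
          rw [hhigh q hq1]
          linarith [(hmap _ (hq p hp0 hp1)).2.2]
        · rw [hmid q hq0 hq1]
          exact hf (hq p hp0 hp1) (hq q hq0 hq1) hpq'
  obtain ⟨p, ⟨x, hx, hcont, hx1, hx2⟩, hp1, hp2⟩ := hE' ⟨h, hh, u, L, hL, fun q h0' h1' => by
    rw [hmid q h0' h1']; exact (hmap _ (hq q h0' h1')).2⟩
  have hxE : x ∈ π ⁻¹' E' ∩ Ioo 0 1 := ⟨by show π x ∈ E'; rw [hx1]; exact hp1, hx⟩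
  have hfx : f x = ext h x := by
    refine eq_ext hh hcont ?_ ?_
    · intro q hqx
      rcases le_or_gt q 0 with hq0 | hq0
      · have hq0' : (q : ℝ) ≤ 0 := by exact_mod_cast hq0
        rw [hlow q hq0]; linarith [(hmap _ hxE).2.1]
      · have hq1 : q < 1 := by exact_mod_cast hqx.trans hx.2
        rw [hmid q hq0 hq1]
        exact (hf (hq q hq0 hq1) hxE hqx).le
    · intro q hqx
      rcases le_or_gt 1 q with hq1 | hq1
      · have hq1' : (1 : ℝ) ≤ q := by exact_mod_cast hq1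
        rw [hhigh q hq1]; linarith [(hmap _ hxE).2.2]
      · have hq0 : 0 < q := by exact_mod_cast hx.1.trans hqx
        rw [hmid q hq0 hq1]
        exact (hf hxE (hq q hq0 hq1) hqx).le
  apply hp2
  rw [← hx2]
  show π (ext h x) ∈ E'
  rw [← hfx]
  exact (hmap _ hxE).1

end Pool.Agent.Lib.MP_f0be4b_lc
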