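import Pool.Agent.Lib.MP_f0be4b_lc.Basic

/-!
A rigid set of reals with some of the points `2 ^ (-n-1)` doubled: a copy of the power set of the
natural numbers among chains, with all suprema and infima.
-/

set_option autoImplicit false

namespace Pool.Agent.Lib.MP_f0be4b_lc

open Set

universe u

/-- The points that may be doubled. -/
def xq (n : ℕ) : ℚ := (1 / 2) ^ (n + 1)

theorem xq_pos (n : ℕ) : 0 < xq n := by unfold xq; positivity

theorem xq_lt (n : ℕ) : xq n < 1 := pow_lt_one₀ (by norm_num) (by norm_num) n.succ_ne_zero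

theorem xq_anti : StrictAnti xq := fun _ _ h =>
  pow_lt_pow_right_of_lt_one₀ (by norm_num) (by norm_num) (Nat.succ_lt_succ h)

open Classical in
/-- The largest doubled point whose upper copy is at most `p`. -/
noncomputable def sg (p : ℝ ×ₗ Bool) : ℚ :=
  if h : ∃ n, toLex ((xq n : ℝ), true) ≤ p then xq (Nat.find h) else 0

theorem le_sg {p : ℝ ×ₗ Bool} {n : ℕ} (h : toLex ((xq n : ℝ), true) ≤ p) : xq n ≤ sg p := by
  classical
  rw [sg, dif_pos ⟨n, h⟩]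
  exact xq_anti.antitone (Nat.find_min' _ h)

theorem sg_cases (p : ℝ ×ₗ Bool) :
    sg p = 0 ∨ ∃ n, toLex ((xq n : ℝ), true) ≤ p ∧ sg p = xq n := by
  classical
  unfold sg
  split_ifs with h
  · exact .inr ⟨_, Nat.find_spec h, rfl⟩
  · exact .inl rfl

theorem sg_mem (p : ℝ ×ₗ Bool) : 0 ≤ sg p ∧ sg p ≤ 1 := by
  rcases sg_cases p with h | ⟨n, -, h⟩ <;> rw [h]
  · exact ⟨le_rfl, zero_le_one⟩
  · exact ⟨(xq_pos n).le, (xq_lt n).le⟩

theorem sg_mono : Monotone sg := fun p q hpq => by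
  rcases sg_cases p with h | ⟨n, h1, h⟩ <;> rw [h]
  · exact (sg_mem q).1
  · exact le_sg (h1.trans hpq)

theorem sg_jump (n : ℕ) : sg (toLex ((xq n : ℝ), false)) < sg (toLex ((xq n : ℝ), true)) := by
  refine lt_of_lt_of_le ?_ (le_sg le_rfl)
  rcases sg_cases (toLex ((xq n : ℝ), false)) with h | ⟨m, h1, h⟩ <;> rw [h]
  · exact xq_pos n
  · rcases Prod.Lex.toLex_le_toLex.1 h1 with h2 | ⟨-, h2⟩
    · exact Rat.cast_lt.1 (show ((xq m : ℝ)) < xq n from h2)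
    · exact absurd (show true ≤ false from h2) (by decide)

/-- The part of `E` in the open unit interval with the points `xq n`, `n ∈ S`, doubled. -/
def W (E : Set ℝ) (S : Set ℕ) : Set (ℝ ×ₗ Bool) :=
  {p | (ofLex p).1 ∈ E ∩ Ioo 0 1 ∧ ((ofLex p).2 = true → ∃ n ∈ S, (ofLex p).1 = xq n)}

theorem W_mono (E : Set ℝ) {S T : Set ℕ} (h : S ⊆ T) : W E S ⊆ W E T :=
  fun _ hp => ⟨hp.1, fun e => (hp.2 e).imp fun _ hn => ⟨h hn.1, hn.2⟩⟩

/-- The lower copy of a point. -/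
def lo {E : Set ℝ} (S : Set ℕ) (t : ℝ) (ht : t ∈ E ∩ Ioo 0 1) : W E S :=
  ⟨toLex (t, false), ht, fun e => absurd e (by simp)⟩

theorem lo_lt {E : Set ℝ} (S : Set ℕ) {s t : ℝ} (hs : s ∈ E ∩ Ioo 0 1) (ht : t ∈ E ∩ Ioo 0 1)
    (h : s < t) : lo S s hs < lo S t ht := Prod.Lex.toLex_lt_toLex.2 (.inl h)

theorem fst_le {p q : ℝ ×ₗ Bool} (h : p ≤ q) : (ofLex p).1 ≤ (ofLex q).1 :=
  (Prod.Lex.le_iff.1 h).elim le_of_lt fun e => e.1.le

/-- The expansion that separates the two copies of every doubled point. -/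
noncomputable def ex (d : ℚ) (p : ℝ ×ₗ Bool) : ℝ := (ofLex p).1 + (d * sg p : ℚ)

theorem ex_mem {d : ℚ} (hd : 0 < d) (p : ℝ ×ₗ Bool) :
    (ofLex p).1 ≤ ex d p ∧ ex d p ≤ (ofLex p).1 + d := by
  have h1 : (0 : ℝ) ≤ (d * sg p : ℚ) := by exact_mod_cast mul_nonneg hd.le (sg_mem p).1
  have h2 : ((d * sg p : ℚ) : ℝ) ≤ d := by exact_mod_cast mul_le_of_le_one_right hd.le (sg_mem p).2
  unfold ex
  constructor <;> linarith

theorem ex_mono {d : ℚ} (hd : 0 < d) (E : Set ℝ) (S : Set ℕ) : StrictMonoOn (ex d) (W E S) := by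
  intro p _ q hq hpq
  rcases Prod.Lex.lt_iff.1 hpq with h | ⟨h1, h2⟩
  · exact add_lt_add_of_lt_of_le h
      (Rat.cast_le.2 (mul_le_mul_of_nonneg_left (sg_mono hpq.le) hd.le))
  · obtain ⟨h3, h4⟩ := Bool.lt_iff.1 h2
    obtain ⟨n, -, hn⟩ := hq.2 h4
    have e1 : p = toLex ((xq n : ℝ), false) := Prod.ext (h1.trans hn) h3
    have e2 : q = toLex ((xq n : ℝ), true) := Prod.ext hn h4
    refine add_lt_add_of_le_of_lt h1.le (Rat.cast_lt.2 (mul_lt_mul_of_pos_left ?_ hd))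
    rw [e1, e2]
    exact sg_jump n

section

variable {E : Set ℝ} (h0 : (0 : ℝ) ∈ E) (hinv : ∀ x ∈ E, ∀ r : ℚ, x + r ∈ E)

include hinv in
theorem ex_E (d : ℚ) {S : Set ℕ} (p : W E S) : ex d p.1 ∈ E ∧ ex d p.1 - d ∈ E :=
  ⟨hinv _ p.2.1.1 _, by
    rw [sub_eq_add_neg, ← Rat.cast_neg]
    exact hinv _ (hinv _ p.2.1.1 _) (-d)⟩

include h0 hinv in
/-- An embedding of `W E S` in `W E T` forces `S ⊆ T`. -/
theorem sub_of_emb (hrig : ∀ (f : ℝ → ℝ) (u L : ℝ), L < 1 → StrictMonoOn f (E ∩ Ioo 0 1) →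
      (∀ x ∈ E ∩ Ioo 0 1, f x ∈ E ∩ Icc u (u + L)) → False) {S T : Set ℕ}
    (g : W E S → W E T) (hg : StrictMono g) : S ⊆ T := by
  classical
  intro n hn
  by_contra hT
  have hx : (xq n : ℝ) ∈ E ∩ Ioo 0 1 :=
    ⟨by simpa using hinv 0 h0 (xq n), by exact_mod_cast xq_pos n, by exact_mod_cast xq_lt n⟩
  let v : W E S := ⟨toLex ((xq n : ℝ), true), hx, fun _ => ⟨n, hn, rfl⟩⟩
  have huv : g (lo S _ hx) < g v := hg (Prod.Lex.toLex_lt_toLex.2 (.inr ⟨rfl, Bool.false_lt_true⟩))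
  let G : ℚ → ℝ → ℝ := fun d t => if h : t ∈ E ∩ Ioo 0 1 then ex d (g (lo S t h)).1 else 0
  have G1 : ∀ d t (h : t ∈ E ∩ Ioo 0 1), G d t = ex d (g (lo S t h)).1 := fun d t h => dif_pos h
  have G2 : ∀ d : ℚ, 0 < d → StrictMonoOn (G d) (E ∩ Ioo 0 1) := fun d hd s hs t ht h => by
    rw [G1 d s hs, G1 d t ht]
    exact ex_mono hd E T (g _).2 (g _).2 (hg (lo_lt S hs ht h))
  by_cases c1 : (ofLex (g (lo S _ hx)).1).1 < xq n
  · obtain ⟨d, d0, d1⟩ := exists_rat_btwn (half_pos (sub_pos.2 c1))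
    have d2 : 0 < d := by exact_mod_cast d0
    have k : ∀ t ∈ E ∩ Ioo 0 1, t ≤ xq n → G d t ∈ E ∧ 0 ≤ G d t ∧ G d t < xq n - d :=
      fun t ht h => by
        rw [G1 d t ht]
        have a1 := ex_mem d2 (g (lo S t ht)).1
        have a2 := fst_le (hg.monotone (a := lo S t ht) (b := lo S _ hx)
          (Prod.Lex.toLex_le_toLex.2 (h.lt_or_eq.imp id fun e => ⟨e, le_rfl⟩)))
        exact ⟨(ex_E hinv d _).1, by linarith [(g (lo S t ht)).2.1.2.1], by linarith⟩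
    refine hrig (fun t => if t ≤ xq n then G d t else t - d) 0 (1 - d) (by linarith)
      (fun s hs t ht h => ?_) fun t ht => ?_
    · dsimp only
      split_ifs with a b b
      · exact G2 d d2 hs ht h
      · linarith [(k s hs a).2.2]
      · linarith
      · linarith
    · split_ifs with a
      · exact ⟨(k t ht a).1, (k t ht a).2.1, by linarith [(k t ht a).2.2, hx.2.2]⟩
      · refine ⟨by simpa [sub_eq_add_neg] using hinv t ht.1 (-d), ?_, by linarith [ht.2.2]⟩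
        linarith [(g (lo S _ hx)).2.1.2.1]
  have c2 : (xq n : ℝ) < (ofLex (g v).1).1 := by
    rcases Prod.Lex.lt_iff.1 huv with h | ⟨h1, h2⟩
    · linarith
    · obtain ⟨m, hm, e⟩ := (g v).2.2 (Bool.lt_iff.1 h2).2
      refine lt_of_le_of_ne (by linarith) fun e' => hT ?_
      rwa [xq_anti.injective (Rat.cast_injective (α := ℝ) (e'.trans e))]
  obtain ⟨d, d0, d1⟩ := exists_rat_btwn (half_pos (sub_pos.2 c2))
  have d2 : 0 < d := by exact_mod_cast d0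
  have k : ∀ t ∈ E ∩ Ioo 0 1, ¬ t ≤ xq n → G d t - d ∈ E ∧ xq n + d < G d t - d ∧ G d t - d ≤ 1 :=
    fun t ht h => by
      rw [G1 d t ht]
      have a1 := ex_mem d2 (g (lo S t ht)).1
      have a2 := fst_le (hg.monotone (a := v) (b := lo S t ht)
        (Prod.Lex.toLex_le_toLex.2 (.inl (not_le.1 h))))
      exact ⟨(ex_E hinv d _).2, by linarith, by linarith [(g (lo S t ht)).2.1.2.2]⟩
  refine hrig (fun t => if t ≤ xq n then t + d else G d t - d) d (1 - d) (by linarith)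
    (fun s hs t ht h => ?_) fun t ht => ?_
  · dsimp only
    split_ifs with a b b
    · linarith
    · linarith [(k t ht b).2.1]
    · linarith
    · linarith [G2 d d2 hs ht h]
  · split_ifs with a
    · exact ⟨hinv t ht.1 d, by linarith [ht.2.1], by linarith [(g v).2.1.2.2]⟩
    · exact ⟨(k t ht a).1, by linarith [(k t ht a).2.1, hx.2.1], by linarith [(k t ht a).2.2]⟩

include h0 hinv in
/-- The chain of a union embeds in every common upper bound. -/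
theorem emb_sUnion (F : Set (Set ℕ)) (hF : F.Nonempty) (X : Type u) [LinearOrder X]
    (hX : ∀ S ∈ F, ∃ f : W E S → X, StrictMono f) : ∃ h : W E (⋃₀ F) → X, StrictMono h := by
  classical
  choose i hi using hX
  by_cases c : ∀ S hS T hT s hs t ht, s < t → i S hS (lo S s hs) < i T hT (lo T t ht)
  · have ch : ∀ t : ℝ, ∃ S ∈ F, ∀ p ∈ W E (⋃₀ F), (ofLex p).1 = t → p ∈ W E S := fun t => by
      by_cases a : ∃ n ∈ ⋃₀ F, t = xq n
      · obtain ⟨n, ⟨S, hS, hn⟩, e⟩ := a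
        exact ⟨S, hS, fun p hp e' => ⟨hp.1, fun _ => ⟨n, hn, e'.trans e⟩⟩⟩
      · obtain ⟨S, hS⟩ := hF
        exact ⟨S, hS, fun p hp e' => ⟨hp.1, fun b => absurd (e' ▸ hp.2 b) a⟩⟩
    choose A hA hA' using ch
    have key : ∀ (s t : ℝ) (p q : ℝ ×ₗ Bool) (hp : p ∈ W E (A s)) (hq : q ∈ W E (A t)),
        s = t → p < q → i _ (hA s) ⟨p, hp⟩ < i _ (hA t) ⟨q, hq⟩ := by
      rintro s _ p q hp hq rfl h
      exact hi _ _ h
    refine ⟨fun p => i _ (hA (ofLex p.1).1) ⟨p.1, hA' _ _ p.2 rfl⟩, fun p q hpq => ?_⟩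
    rcases (fst_le hpq.le).lt_or_eq with h | h
    · obtain ⟨r, r1, r2⟩ := exists_rat_btwn h
      have hr : (r : ℝ) ∈ E ∩ Ioo 0 1 :=
        ⟨by simpa using hinv 0 h0 r, p.2.1.2.1.trans r1, r2.trans q.2.1.2.2⟩
      refine ((hi _ _ ?_).trans (c _ (hA _) _ (hA _) r hr _ q.2.1 r2)).trans_le
        ((hi _ _).monotone ?_)
      · exact Prod.Lex.lt_iff.2 (.inl r1)
      · exact Prod.Lex.le_iff.2 (.inr ⟨rfl, Bool.false_le _⟩)
    · exact key _ _ _ _ _ _ h hpq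
  push Not at c
  obtain ⟨S, hS, T, hT, s, hs, t, ht, hst, hle⟩ := c
  obtain ⟨d, d0, d1⟩ := exists_rat_btwn (half_pos (sub_pos.2 hst))
  have d2 : 0 < d := by exact_mod_cast d0
  have k1 : ∀ p : W E (⋃₀ F), (ofLex p.1).1 ≤ (s + t) / 2 → ex d p.1 ∈ E ∩ Ioo 0 1 := fun p h =>
    ⟨(ex_E hinv d p).1, p.2.1.2.1.trans_le (ex_mem d2 _).1, by linarith [(ex_mem d2 p.1).2, ht.2.2]⟩
  have k2 : ∀ p : W E (⋃₀ F), ¬ (ofLex p.1).1 ≤ (s + t) / 2 → ex d p.1 - d ∈ E ∩ Ioo 0 1 :=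
    fun p h => ⟨(ex_E hinv d p).2, by linarith [(ex_mem d2 p.1).1, hs.2.1],
      by linarith [(ex_mem d2 p.1).2, p.2.1.2.2]⟩
  refine ⟨fun p => if h : (ofLex p.1).1 ≤ (s + t) / 2 then i T hT (lo T _ (k1 p h))
    else i S hS (lo S _ (k2 p h)), fun p q hpq => ?_⟩
  have m := ex_mono d2 E _ p.2 q.2 hpq
  dsimp only
  split_ifs with a b b
  · exact hi _ _ (lo_lt T _ _ m)
  · exact ((hi _ _ (lo_lt T _ ht (by linarith [(ex_mem d2 p.1).2]))).trans_le hle).trans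
      (hi _ _ (lo_lt S hs _ (by linarith [(ex_mem d2 q.1).1])))
  · exact absurd ((fst_le hpq.le).trans b) a
  · exact hi _ _ (lo_lt S _ _ (by linarith))

include hinv in
/-- Two embeddings with room between them combine to an embedding with no doubled point. -/
theorem glue {X : Type u} [LinearOrder X] {S T : Set ℕ} (U : Set ℕ) {f : X → W E S}
    {g : X → W E T} (hf : StrictMono f) (hg : StrictMono g) (P : X → Prop)
    (hP : ∀ y z, y < z → P z → P y) {s t : ℝ} (hs : 0 < s) (hst : s < t) (ht : t < 1)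
    (h1 : ∀ y, P y → (ofLex (f y).1).1 ≤ s) (h2 : ∀ y, ¬ P y → t ≤ (ofLex (g y).1).1) :
    ∃ h : X → W E U, StrictMono h := by
  classical
  obtain ⟨d, d0, d1⟩ := exists_rat_btwn (half_pos (sub_pos.2 hst))
  have d2 : 0 < d := by exact_mod_cast d0
  have k1 : ∀ y, P y → ex d (f y).1 ∈ E ∩ Ioo 0 1 := fun y h => ⟨(ex_E hinv d _).1,
    (f y).2.1.2.1.trans_le (ex_mem d2 _).1, by linarith [(ex_mem d2 (f y).1).2, h1 y h]⟩
  have k2 : ∀ y, ¬ P y → ex d (g y).1 - d ∈ E ∩ Ioo 0 1 := fun y h =>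
    ⟨(ex_E hinv d _).2, by linarith [(ex_mem d2 (g y).1).1, h2 y h],
      by linarith [(ex_mem d2 (g y).1).2, (g y).2.1.2.2]⟩
  refine ⟨fun y => if h : P y then lo U _ (k1 y h) else lo U _ (k2 y h), fun y z h => ?_⟩
  dsimp only
  split_ifs with a b b
  · exact lo_lt U _ _ (ex_mono d2 E _ (f y).2 (f z).2 (hf h))
  · exact lo_lt U _ _
      (by linarith [(ex_mem d2 (f y).1).2, h1 y a, (ex_mem d2 (g z).1).1, h2 z b])
  · exact absurd (hP y z h b) a
  · exact lo_lt U _ _ (by linarith [ex_mono d2 E _ (g y).2 (g z).2 (hg h)])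

include hinv in
/-- Every common lower bound embeds in the chain of an intersection. -/
theorem emb_sInter (F : Set (Set ℕ)) (hF : F.Nonempty) (X : Type u) [LinearOrder X]
    (hX : ∀ S ∈ F, ∃ f : X → W E S, StrictMono f) : ∃ h : X → W E (⋂₀ F), StrictMono h := by
  classical
  obtain ⟨S, hS⟩ := hF
  obtain ⟨f, hf⟩ := hX S hS
  by_cases c : ∃ (n : ℕ) (a b : X), (f a).1 = toLex ((xq n : ℝ), false) ∧
      (f b).1 = toLex ((xq n : ℝ), true) ∧ n ∉ ⋂₀ F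
  · obtain ⟨n, a, b, ha, hb, hn⟩ := c
    obtain ⟨T, hT, hn⟩ : ∃ T ∈ F, n ∉ T := by simpa using hn
    obtain ⟨g, hg⟩ := hX T hT
    have x0 : (0 : ℝ) < xq n := by exact_mod_cast xq_pos n
    have x1 : (xq n : ℝ) < 1 := by exact_mod_cast xq_lt n
    have ea : (ofLex (f a).1).1 = xq n := by rw [ha]; rfl
    have eb : (ofLex (f b).1).1 = xq n := by rw [hb]; rfl
    by_cases c1 : (ofLex (g a).1).1 < xq n
    · exact glue hinv _ hg hf (· ≤ a) (fun y z h hz => h.le.trans hz) (g a).2.1.2.1 c1 x1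
        (fun y h => fst_le (hg.monotone h)) fun y h => ea ▸ fst_le (hf.monotone (not_le.1 h).le)
    have hab : a < b := hf.lt_iff_lt.1 (show (f a).1 < (f b).1 from
      ha ▸ hb ▸ Prod.Lex.toLex_lt_toLex.2 (.inr ⟨rfl, Bool.false_lt_true⟩))
    have c2 : (xq n : ℝ) < (ofLex (g b).1).1 := by
      rcases Prod.Lex.lt_iff.1 (hg hab) with h | ⟨h1, h2⟩
      · linarith
      · obtain ⟨m, hm, e⟩ := (g b).2.2 (Bool.lt_iff.1 h2).2
        refine lt_of_le_of_ne (by linarith) fun e' => hn ?_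
        rwa [xq_anti.injective (Rat.cast_injective (α := ℝ) (e'.trans e))]
    exact glue hinv _ hf hg (· ≤ b) (fun y z h hz => h.le.trans hz) x0 c2 (g b).2.1.2.2
      (fun y h => eb ▸ fst_le (hf.monotone h)) fun y h => fst_le (hg.monotone (not_le.1 h).le)
  refine ⟨fun y => if h : (f y).1 ∈ W E (⋂₀ F) then ⟨_, h⟩ else lo _ _ (f y).2.1, fun y z h => ?_⟩
  have e : ∀ y, (ofLex (if h : (f y).1 ∈ W E (⋂₀ F) then ⟨_, h⟩ else lo _ _ (f y).2.1 :
      W E (⋂₀ F)).1).1 = (ofLex (f y).1).1 := fun y => by split_ifs <;> rfl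
  rcases Prod.Lex.lt_iff.1 (hf h) with h1 | ⟨h1, h2⟩
  · exact Prod.Lex.lt_iff.2 (.inl (by rwa [e, e]))
  · obtain ⟨h3, h4⟩ := Bool.lt_iff.1 h2
    obtain ⟨n, -, hn⟩ := (f z).2.2 h4
    have hy : (f y).1 ∈ W E (⋂₀ F) := ⟨(f y).2.1, fun e => absurd (h3.symm.trans e) (by decide)⟩
    have hz : (f z).1 ∈ W E (⋂₀ F) := ⟨(f z).2.1, fun _ => ⟨n, by_contra fun hn' =>
      c ⟨n, y, z, Prod.ext (h1.trans hn) h3, Prod.ext hn h4, hn'⟩, hn⟩⟩
    dsimp only
    rw [dif_pos hy, dif_pos hz]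
    exact hf h

end

theorem exists_pow : ∃ C : Set ℕ → Set ℝ, (∀ S T, S ⊆ T → C S ⊆ C T) ∧
    (∀ S T, (∃ f : C S → C T, StrictMono f) → S ⊆ T) ∧
    ∀ F : Set (Set ℕ), F.Nonempty → ∀ (X : Type u) [LinearOrder X],
      ((∀ S ∈ F, ∃ f : C S → X, StrictMono f) → ∃ h : C (⋃₀ F) → X, StrictMono h) ∧
      ((∀ S ∈ F, ∃ f : X → C S, StrictMono f) → ∃ h : X → C (⋂₀ F), StrictMono h) := by
  obtain ⟨E, h0, hinv, hrig⟩ := exists_rigid
  have e : ∀ S, W E S ≃o (ex 1 '' W E S) := fun S => (ex_mono one_pos E S).orderIso _ _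
  refine ⟨fun S => ex 1 '' W E S, fun S T h => image_mono (W_mono E h), fun S T ⟨f, hf⟩ =>
    sub_of_emb h0 hinv hrig _ (((e T).symm.strictMono.comp hf).comp (e S).strictMono),
    fun F hF X _ => ⟨fun hX => ?_, fun hX => ?_⟩⟩
  · obtain ⟨h, hh⟩ := emb_sUnion h0 hinv F hF X fun S hS =>
      (hX S hS).elim fun f hf => ⟨_, hf.comp (e S).strictMono⟩
    exact ⟨_, hh.comp (e _).symm.strictMono⟩
  · obtain ⟨h, hh⟩ := emb_sInter hinv F hF X fun S hS =>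
      (hX S hS).elim fun f hf => ⟨_, (e S).symm.strictMono.comp hf⟩
    exact ⟨_, (e _).strictMono.comp hh⟩

end Pool.Agent.Lib.MP_f0be4b_lc
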