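import Pool.Agent.Lib.MP_f0be4b_lc.Univ

namespace Pool.Agent.Lib.MP_f0be4b_lc.RealChains

universe u

/-- Two incomparable sets of reals whose common superset `C` embeds in every chain, of any
universe, into which both embed. -/
theorem result : ∃ A B C : Set ℝ, (¬ ∃ f : A → B, StrictMono f) ∧ (¬ ∃ f : B → A, StrictMono f) ∧
    A ⊆ C ∧ B ⊆ C ∧ ∀ (X : Type u) [LinearOrder X], (∃ f : A → X, StrictMono f) →
      (∃ g : B → X, StrictMono g) → ∃ h : C → X, StrictMono h := by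
  obtain ⟨A, B, C, h1, h2, h3, h4, h5⟩ := Pool.Agent.Lib.MP_f0be4b_lc.exists_sup.{u}
  refine ⟨A, B, C, fun ⟨f, hf⟩ => h1.false (OrderEmbedding.ofStrictMono f hf),
    fun ⟨f, hf⟩ => h2.false (OrderEmbedding.ofStrictMono f hf), h3, h4,
    fun X _ ⟨f, hf⟩ ⟨g, hg⟩ => ?_⟩
  obtain ⟨h⟩ := h5 X ⟨OrderEmbedding.ofStrictMono f hf⟩ ⟨OrderEmbedding.ofStrictMono g hg⟩
  exact ⟨h, h.strictMono⟩

end Pool.Agent.Lib.MP_f0be4b_lc.RealChains
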