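import Pool.Agent.Lib.MP_f0be4b_lc.Basic

/-!
The example of two incomparable chains with a supremum, as sets of reals, against chains of any
universe.
-/

set_option autoImplicit false

namespace Pool.Agent.Lib.MP_f0be4b_lc

universe u

theorem exists_sup : ∃ A B C : Set ℝ, IsEmpty (A ↪o B) ∧ IsEmpty (B ↪o A) ∧ A ⊆ C ∧ B ⊆ C ∧
    ∀ (X : Type u) [LinearOrder X],
      Nonempty (A ↪o X) → Nonempty (B ↪o X) → Nonempty (C ↪o X) := by
  classical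
  obtain ⟨E, h0, hinv, hrig⟩ := exists_rigid
  have h1 : (1 : ℝ) ∈ E := by simpa using hinv 0 h0 1
  refine ⟨E ∩ Set.Ico 0 1, E ∩ Set.Ioc 0 1, E ∩ Set.Icc 0 1, ⟨fun e => ?_⟩, ⟨fun e => ?_⟩,
    Set.inter_subset_inter_right _ Set.Ico_subset_Icc_self,
    Set.inter_subset_inter_right _ Set.Ioc_subset_Icc_self, ?_⟩
  · -- no embedding of A into B
    let z : (E ∩ Set.Ico 0 1 : Set ℝ) := ⟨0, h0, le_refl _, one_pos⟩
    let f : ℝ → ℝ := fun x => if h : x ∈ E ∩ Set.Ico 0 1 then (e ⟨x, h⟩ : ℝ) else 0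
    have hf : ∀ x (h : x ∈ E ∩ Set.Ioo 0 1), f x = (e ⟨x, h.1, h.2.1.le, h.2.2⟩ : ℝ) :=
      fun x h => dif_pos (show x ∈ E ∩ Set.Ico 0 1 from ⟨h.1, h.2.1.le, h.2.2⟩)
    refine hrig f (e z) (1 - e z) (by linarith [(e z).2.2.1]) ?_ ?_
    · intro x hx y hy hxy
      rw [hf x hx, hf y hy]
      exact e.strictMono (show (⟨x, _⟩ : (E ∩ Set.Ico 0 1 : Set ℝ)) < ⟨y, _⟩ from hxy)
    · intro x hx
      rw [hf x hx]
      refine ⟨(e _).2.1, ?_, ?_⟩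
      · exact e.monotone (show z ≤ ⟨x, _⟩ from hx.2.1.le)
      · linarith [(e ⟨x, hx.1, hx.2.1.le, hx.2.2⟩).2.2.2]
  · -- no embedding of B into A
    let z : (E ∩ Set.Ioc 0 1 : Set ℝ) := ⟨1, h1, one_pos, le_refl _⟩
    let f : ℝ → ℝ := fun x => if h : x ∈ E ∩ Set.Ioc 0 1 then (e ⟨x, h⟩ : ℝ) else 0
    have hf : ∀ x (h : x ∈ E ∩ Set.Ioo 0 1), f x = (e ⟨x, h.1, h.2.1, h.2.2.le⟩ : ℝ) :=
      fun x h => dif_pos (show x ∈ E ∩ Set.Ioc 0 1 from ⟨h.1, h.2.1, h.2.2.le⟩)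
    refine hrig f 0 (e z) (e z).2.2.2 ?_ ?_
    · intro x hx y hy hxy
      rw [hf x hx, hf y hy]
      exact e.strictMono (show (⟨x, _⟩ : (E ∩ Set.Ioc 0 1 : Set ℝ)) < ⟨y, _⟩ from hxy)
    · intro x hx
      rw [hf x hx]
      refine ⟨(e _).2.1, (e _).2.2.1, ?_⟩
      rw [zero_add]
      exact e.monotone (show ⟨x, _⟩ ≤ z from hx.2.2.le)
  · -- C embeds in every common upper bound
    rintro X _ ⟨i⟩ ⟨k⟩
    let t : (E ∩ Set.Ioc 0 1 : Set ℝ) := ⟨1, h1, one_pos, le_refl _⟩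
    by_cases hc : ∀ a, i a < k t
    · let g : (E ∩ Set.Icc 0 1 : Set ℝ) → X := fun x =>
        if h : x.1 < 1 then i ⟨x.1, x.2.1, x.2.2.1, h⟩ else k t
      refine ⟨OrderEmbedding.ofStrictMono g ?_⟩
      intro x y hxy
      have hxy' : x.1 < y.1 := hxy
      have hx : x.1 < 1 := hxy'.trans_le y.2.2.2
      simp only [g, dif_pos hx]
      split_ifs with hy
      · exact i.strictMono (show (⟨x.1, _⟩ : (E ∩ Set.Ico 0 1 : Set ℝ)) < ⟨y.1, _⟩ from hxy')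
      · exact hc _
    · push Not at hc
      obtain ⟨a, ha⟩ := hc
      have ha0 : 0 ≤ a.1 := a.2.2.1
      have ha1 : a.1 < 1 := a.2.2.2
      obtain ⟨r, hr0, hr1⟩ := exists_rat_btwn (show (0 : ℝ) < (1 - a.1) / 2 by linarith)
      have hB : ∀ x : (E ∩ Set.Icc 0 1 : Set ℝ), x.1 ≤ a.1 + r →
          x.1 + r ∈ E ∩ Set.Ioc 0 1 := fun x hx =>
        ⟨hinv _ x.2.1 r, by linarith [x.2.2.1], by linarith⟩
      have hA : ∀ x : (E ∩ Set.Icc 0 1 : Set ℝ), ¬ x.1 ≤ a.1 + r →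
          x.1 - r ∈ E ∩ Set.Ico 0 1 := fun x hx =>
        ⟨by simpa [sub_eq_add_neg] using hinv _ x.2.1 (-r), by linarith [not_le.1 hx],
          by linarith [x.2.2.2]⟩
      let g : (E ∩ Set.Icc 0 1 : Set ℝ) → X := fun x =>
        if h : x.1 ≤ a.1 + r then k ⟨x.1 + r, hB x h⟩ else i ⟨x.1 - r, hA x h⟩
      refine ⟨OrderEmbedding.ofStrictMono g ?_⟩
      intro x y hxy
      have hxy' : x.1 < y.1 := hxy
      simp only [g]
      split_ifs with hx hy hy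
      · exact k.strictMono (show (⟨_, _⟩ : (E ∩ Set.Ioc 0 1 : Set ℝ)) < ⟨_, _⟩ from
          (by linarith : x.1 + r < y.1 + r))
      · calc k ⟨x.1 + r, hB x hx⟩ ≤ k t := k.monotone (hB x hx).2.2
          _ ≤ i a := ha
          _ < i ⟨y.1 - r, hA y hy⟩ := i.strictMono
              (show a.1 < y.1 - r by linarith [not_le.1 hy])
      · exact absurd (hxy'.le.trans hy) hx
      · exact i.strictMono (show (⟨_, _⟩ : (E ∩ Set.Ico 0 1 : Set ℝ)) < ⟨_, _⟩ from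
          (by linarith : x.1 - r < y.1 - r))

end Pool.Agent.Lib.MP_f0be4b_lc
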